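import Pool.Agent.Lib.MP_77f3ac_co.Rows

/-!
# MP_77f3ac_co: the V rows and the cap row
-/

set_option autoImplicit false

namespace Torus103

open Finset

namespace CapRow

variable {P : Type*} [DecidableEq P]

/-- The weight of one line. -/
noncomputable def v (F Y : Finset P) : ℚ := (1 / 2) ^ (Y ∩ F).card

theorem v_nonneg (F Y : Finset P) : 0 ≤ v F Y := by unfold v; positivity

theorem un_singleton (F Y : Finset P) : un F {Y} = Y ∩ F := by
  simp [un]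

theorem w_singleton (F Y : Finset P) : w F {Y} = v F Y := by
  unfold w v
  rw [un_singleton]

theorem w_empty (F : Finset P) : w F ∅ = 1 := by
  simp [w, un]

theorem w_nonneg (F : Finset P) (C : Finset (Finset P)) : 0 ≤ w F C := by unfold w; positivity

theorem mem_un {F : Finset P} {C : Finset (Finset P)} {x : P} :
    x ∈ un F C ↔ (∃ Y ∈ C, x ∈ Y) ∧ x ∈ F := by
  simp [un]

theorem w_insert {F Y : Finset P} {C : Finset (Finset P)} (h : (Y ∩ un F C).card = 2) :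
    w F (insert Y C) = 4 * v F Y * w F C := by
  have e : un F (insert Y C) = (Y ∩ F) ∪ un F C := by
    ext x
    rw [mem_union, mem_un, mem_un, mem_inter]
    constructor
    · rintro ⟨⟨Z, hZ, hx⟩, hF⟩
      rcases mem_insert.1 hZ with rfl | hZ
      · exact Or.inl ⟨hx, hF⟩
      · exact Or.inr ⟨⟨Z, hZ, hx⟩, hF⟩
    · rintro (⟨hx, hF⟩ | ⟨⟨Z, hZ, hx⟩, hF⟩)
      · exact ⟨⟨Y, mem_insert_self _ _, hx⟩, hF⟩
      · exact ⟨⟨Z, mem_insert_of_mem hZ, hx⟩, hF⟩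
  have e2 : (Y ∩ F) ∩ un F C = Y ∩ un F C := by
    ext x
    rw [mem_inter, mem_inter, mem_inter, mem_un]
    tauto
  have h1 := card_union_add_card_inter (Y ∩ F) (un F C)
  rw [e2, h] at h1
  unfold w v
  rw [e]
  have h2 : (1 / 2 : ℚ) ^ (Y ∩ F).card * (1 / 2) ^ (un F C).card =
      (1 / 2) ^ (Y ∩ F ∪ un F C).card * (1 / 2) ^ 2 := by
    rw [← pow_add, ← pow_add, h1]
  rw [mul_assoc, h2]
  ring

theorem e3_le {a b c d : ℚ} (ha : 0 ≤ a) (hb : 0 ≤ b) (hc : 0 ≤ c) (hd : 0 ≤ d) :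
    16 * (a * b * c + a * b * d + a * c * d + b * c * d) ≤ (a + b + c + d) ^ 3 := by
  have h1 : 4 * (a * b) ≤ (a + b) ^ 2 := by nlinarith [sq_nonneg (a - b)]
  have h2 : 4 * (c * d) ≤ (c + d) ^ 2 := by nlinarith [sq_nonneg (c - d)]
  have h3 : 4 * ((a + b) * (c + d)) ≤ (a + b + c + d) ^ 2 := by
    nlinarith [sq_nonneg (a + b - (c + d))]
  have h4 := mul_le_mul_of_nonneg_right h1 (show 0 ≤ 4 * (c + d) by positivity)
  have h5 := mul_le_mul_of_nonneg_right h2 (show 0 ≤ 4 * (a + b) by positivity)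
  have h6 := mul_le_mul_of_nonneg_right h3 (show 0 ≤ a + b + c + d by positivity)
  nlinarith

theorem e2_le {a b c d : ℚ} :
    8 * (a * b + a * c + a * d + b * c + b * d + c * d) ≤ 3 * (a + b + c + d) ^ 2 := by
  nlinarith [sq_nonneg (a - b), sq_nonneg (a - c), sq_nonneg (a - d), sq_nonneg (b - c),
    sq_nonneg (b - d), sq_nonneg (c - d)]

theorem fiber {ι : Type*} (D : Finset ι) (i : ι → Fin 4) (f : ι → ℚ) :
    ∑ a ∈ D, f a = ∑ j : Fin 4, ∑ a ∈ D.filter (fun a => i a = j), f a := by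
  rw [Finset.sum_fiberwise]

/-- Ordered triples with increasing classes. -/
theorem triples_le {ι : Type*} (D : Finset ι) (i : ι → Fin 4) (f : ι → ℚ) (hf : ∀ a, 0 ≤ f a) :
    16 * ∑ q ∈ (D ×ˢ (D ×ˢ D)).filter (fun q => i q.1 < i q.2.1 ∧ i q.2.1 < i q.2.2),
      f q.1 * (f q.2.1 * f q.2.2) ≤ (∑ a ∈ D, f a) * ((∑ a ∈ D, f a) * ∑ a ∈ D, f a) := by
  classical
  obtain ⟨x, hx⟩ : ∃ x : Fin 4 → ℚ, x = fun j => ∑ a ∈ D.filter (fun a => i a = j), f a := ⟨_, rfl⟩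
  have hx0 : ∀ j, 0 ≤ x j := fun j => by
    rw [hx]
    exact sum_nonneg fun a _ => hf a
  have h1 : ∑ a ∈ D, f a = x 0 + x 1 + x 2 + x 3 := by
    rw [fiber D i f, Fin.sum_univ_four, hx]
  have h2 : ∑ q ∈ (D ×ˢ (D ×ˢ D)).filter (fun q => i q.1 < i q.2.1 ∧ i q.2.1 < i q.2.2),
      f q.1 * (f q.2.1 * f q.2.2) = ∑ j : Fin 4, ∑ k : Fin 4, ∑ l : Fin 4,
        if j < k ∧ k < l then x j * (x k * x l) else 0 := by
    rw [sum_filter, sum_product, fiber D i]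
    refine sum_congr rfl fun j _ => ?_
    have e1 : ∀ a ∈ D.filter (fun a => i a = j), ∑ y ∈ D ×ˢ D,
        (if i (a, y).1 < i (a, y).2.1 ∧ i (a, y).2.1 < i (a, y).2.2 then
          f (a, y).1 * (f (a, y).2.1 * f (a, y).2.2) else 0) =
        f a * ∑ k : Fin 4, ∑ l : Fin 4, if j < k ∧ k < l then x k * x l else 0 := by
      intro a ha
      rw [mem_filter] at ha
      rw [sum_product, fiber D i, mul_sum]
      refine sum_congr rfl fun k _ => ?_
      have e2 : ∀ b ∈ D.filter (fun b => i b = k), (∑ c ∈ D,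
          (if i a < i b ∧ i b < i c then f a * (f b * f c) else 0)) =
          f b * (f a * ∑ l : Fin 4, if j < k ∧ k < l then x l else 0) := by
        intro b hb
        rw [mem_filter] at hb
        rw [fiber D i, mul_sum, mul_sum]
        refine sum_congr rfl fun l _ => ?_
        have e3 : ∀ c ∈ D.filter (fun c => i c = l),
            (if i a < i b ∧ i b < i c then f a * (f b * f c) else 0) =
            f b * (f a * if j < k ∧ k < l then f c else 0) := by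
          intro c hc
          rw [mem_filter] at hc
          rw [ha.2, hb.2, hc.2]
          split_ifs
          · ring
          · ring
        rw [sum_congr rfl e3, ← mul_sum, ← mul_sum]
        congr 2
        split_ifs
        · rw [hx]
        · rw [sum_const_zero]
      rw [sum_congr rfl e2, ← sum_mul]
      have e4 : ∑ b ∈ D.filter (fun b => i b = k), f b = x k := by rw [hx]
      rw [e4]
      have e5 : ∀ l : Fin 4, (if j < k ∧ k < l then x k * x l else 0) =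
          x k * if j < k ∧ k < l then x l else 0 := by
        intro l
        split_ifs
        · rfl
        · ring
      simp only [e5]
      rw [← mul_sum]
      ring
    rw [sum_congr rfl e1, ← sum_mul]
    have e4 : ∑ b ∈ D.filter (fun b => i b = j), f b = x j := by rw [hx]
    rw [e4, mul_sum]
    refine sum_congr rfl fun k _ => ?_
    rw [mul_sum]
    refine sum_congr rfl fun l _ => ?_
    split_ifs
    · rfl
    · ring
  rw [h1, h2]
  have h3 := e3_le (hx0 0) (hx0 1) (hx0 2) (hx0 3)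
  have h4 : (∑ j : Fin 4, ∑ k : Fin 4, ∑ l : Fin 4,
      if j < k ∧ k < l then x j * (x k * x l) else 0) =
      x 0 * x 1 * x 2 + x 0 * x 1 * x 3 + x 0 * x 2 * x 3 + x 1 * x 2 * x 3 := by
    simp only [Fin.sum_univ_four]
    simp (config := { decide := true }) only [if_true, if_false, add_zero, zero_add]
    ring
  rw [h4]
  refine h3.trans (le_of_eq ?_)
  ring

/-- Ordered pairs with increasing classes. -/
theorem pairs_le {ι : Type*} (D : Finset ι) (i : ι → Fin 4) (f : ι → ℚ) :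
    8 * ∑ q ∈ (D ×ˢ D).filter (fun q => i q.1 < i q.2), f q.1 * f q.2 ≤
      3 * ((∑ a ∈ D, f a) * ∑ a ∈ D, f a) := by
  classical
  obtain ⟨x, hx⟩ : ∃ x : Fin 4 → ℚ, x = fun j => ∑ a ∈ D.filter (fun a => i a = j), f a := ⟨_, rfl⟩
  have h1 : ∑ a ∈ D, f a = x 0 + x 1 + x 2 + x 3 := by
    rw [fiber D i f, Fin.sum_univ_four, hx]
  have h2 : ∑ q ∈ (D ×ˢ D).filter (fun q => i q.1 < i q.2), f q.1 * f q.2 =
      ∑ j : Fin 4, ∑ k : Fin 4, if j < k then x j * x k else 0 := by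
    rw [sum_filter, sum_product, fiber D i]
    refine sum_congr rfl fun j _ => ?_
    have e1 : ∀ a ∈ D.filter (fun a => i a = j), ∑ y ∈ D,
        (if i (a, y).1 < i (a, y).2 then f (a, y).1 * f (a, y).2 else 0) =
        f a * ∑ k : Fin 4, if j < k then x k else 0 := by
      intro a ha
      rw [mem_filter] at ha
      rw [fiber D i, mul_sum]
      refine sum_congr rfl fun k _ => ?_
      have e2 : ∀ b ∈ D.filter (fun b => i b = k),
          (if i a < i b then f a * f b else 0) = f a * if j < k then f b else 0 := by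
        intro b hb
        rw [mem_filter] at hb
        rw [ha.2, hb.2]
        split_ifs
        · rfl
        · ring
      rw [sum_congr rfl e2, ← mul_sum]
      congr 1
      split_ifs
      · rw [hx]
      · rw [sum_const_zero]
    rw [sum_congr rfl e1, ← sum_mul]
    have e4 : ∑ b ∈ D.filter (fun b => i b = j), f b = x j := by rw [hx]
    rw [e4, mul_sum]
    refine sum_congr rfl fun k _ => ?_
    split_ifs
    · rfl
    · ring
  rw [h1, h2]
  have h3 := @e2_le (x 0) (x 1) (x 2) (x 3)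
  have h4 : (∑ j : Fin 4, ∑ k : Fin 4, if j < k then x j * x k else 0) =
      x 0 * x 1 + x 0 * x 2 + x 0 * x 3 + x 1 * x 2 + x 1 * x 3 + x 2 * x 3 := by
    simp only [Fin.sum_univ_four]
    simp (config := { decide := true }) only [if_true, if_false, add_zero, zero_add]
    ring
  rw [h4]
  refine h3.trans (le_of_eq ?_)
  ring

theorem sum_le_of_surj {α β : Type*} [DecidableEq α] {A : Finset α} {Q : Finset β} {f : α → ℚ}
    (hf : ∀ a, 0 ≤ f a) (g : β → α) (h : ∀ a ∈ A, ∃ q ∈ Q, g q = a) :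
    ∑ a ∈ A, f a ≤ ∑ q ∈ Q, f (g q) := by
  have h1 : A ⊆ Q.image g := fun a ha => by
    obtain ⟨q, hq, rfl⟩ := h a ha
    exact mem_image_of_mem g hq
  refine (sum_le_sum_of_subset_of_nonneg h1 fun a _ _ => hf a).trans ?_
  rw [← sum_fiberwise_of_maps_to (s := Q) (t := Q.image g) (g := g)
    (fun q hq => mem_image_of_mem g hq)]
  refine sum_le_sum fun a ha => ?_
  obtain ⟨q, hq, rfl⟩ := mem_image.1 ha
  exact single_le_sum (f := fun q => f (g q)) (fun q _ => hf _)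
    (mem_filter.2 ⟨hq, rfl⟩ : q ∈ Q.filter fun q' => g q' = g q)

theorem sum_le_of_inj {α β : Type*} [DecidableEq α] {A : Finset α} {Q : Finset β} {f : α → ℚ}
    (hf : ∀ a, 0 ≤ f a) (g : β → α) (h : ∀ q ∈ Q, g q ∈ A)
    (hg : ∀ q ∈ Q, ∀ q' ∈ Q, g q = g q' → q = q') :
    ∑ q ∈ Q, f (g q) ≤ ∑ a ∈ A, f a := by
  have h1 : Q.image g ⊆ A := fun a ha => by
    obtain ⟨q, hq, rfl⟩ := mem_image.1 ha
    exact h q hq
  refine le_trans (le_of_eq ?_) (sum_le_sum_of_subset_of_nonneg h1 fun a _ _ => hf a)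
  rw [sum_image]
  intro q hq q' hq' hh
  exact hg q hq q' hq' hh

/-- The lines double-crossing `B` off `m`. -/
noncomputable def DD (F : Finset P) (m : P) (𝓛 : Finset (Finset P)) (B : Finset P) :
    Finset (Finset P) := 𝓛.filter fun Y => Y ≠ B ∧ m ∉ Y ∧ (Y ∩ B ∩ F.erase m).card = 2

theorem mem_DD {F : Finset P} {m : P} {𝓛 : Finset (Finset P)} {B Y : Finset P} :
    Y ∈ DD F m 𝓛 B ↔ Y ∈ 𝓛 ∧ Y ≠ B ∧ m ∉ Y ∧ (Y ∩ B ∩ F.erase m).card = 2 := by
  unfold DD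
  rw [mem_filter]

theorem card_two {𝒢 : Finset (Finset P)} (hG : Geom 𝒢) {F' Y B : Finset P} (hY : Y ∈ 𝒢)
    (hB : B ∈ 𝒢) (hne : Y ≠ B) (h : (Y ∩ B ∩ F').card = 2) :
    (Y ∩ B).card = 2 ∧ Y ∩ B ∩ F' = Y ∩ B := by
  have h1 := hG.two Y hY B hB hne
  have h2 : Y ∩ B ∩ F' ⊆ Y ∩ B := inter_subset_left
  have h3 := card_le_card h2
  have h4 : (Y ∩ B).card = 2 := by omega
  exact ⟨h4, eq_of_subset_of_card_le h2 (by omega)⟩

theorem disj {𝒢 : Finset (Finset P)} (hG : Geom 𝒢) {F' Y Z B : Finset P} (hY : Y ∈ 𝒢)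
    (hZ : Z ∈ 𝒢) (hB : B ∈ 𝒢) (hne : Y ≠ B) (hne' : Z ≠ B) (hYZ : Y ≠ Z)
    (h : (Y ∩ B ∩ F').card = 2) (h' : (Z ∩ B ∩ F').card = 2)
    (hd : Y ∩ B ∩ F' ≠ Z ∩ B ∩ F') : Y ∩ Z = ∅ := by
  by_contra hcon
  obtain ⟨h1, h2⟩ := card_two hG hY hB hne h
  obtain ⟨h3, h4⟩ := card_two hG hZ hB hne' h'
  have h5 := hG.trans Y hY B hB Z hZ hne (Ne.symm hne') hYZ h1 (by rw [inter_comm]; exact h3)
    (nonempty_iff_ne_empty.2 hcon)
  apply hd
  rw [h2, h4, h5.1, inter_comm]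

theorem inter_un_single {F' Y B : Finset P} (h : (Y ∩ B ∩ F').card = 2) :
    (Y ∩ un F' {B}).card = 2 := by
  rw [un_singleton, ← inter_assoc]
  exact h

theorem w_pair {F' Y B : Finset P} (h : (Y ∩ B ∩ F').card = 2) :
    w F' {Y, B} = 4 * v F' Y * v F' B := by
  have h1 := w_insert (inter_un_single h)
  rw [w_singleton] at h1
  exact h1

theorem inter_un_insert {F' Y Z : Finset P} {C : Finset (Finset P)} (h : Y ∩ Z = ∅) :
    Y ∩ un F' (insert Z C) = Y ∩ un F' C := by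
  ext x
  rw [mem_inter, mem_inter, mem_un, mem_un]
  constructor
  · rintro ⟨hx, ⟨W, hW, hxW⟩, hF⟩
    rcases mem_insert.1 hW with rfl | hW
    · exact absurd (mem_inter.2 ⟨hx, hxW⟩) (by rw [h]; simp)
    · exact ⟨hx, ⟨W, hW, hxW⟩, hF⟩
  · rintro ⟨hx, ⟨W, hW, hxW⟩, hF⟩
    exact ⟨hx, ⟨W, mem_insert_of_mem hW, hxW⟩, hF⟩

theorem w_triple {F' Y Z B : Finset P} (h : (Y ∩ B ∩ F').card = 2) (h' : (Z ∩ B ∩ F').card = 2)
    (hd : Y ∩ Z = ∅) : w F' {Y, Z, B} = 16 * (v F' Y * (v F' Z * v F' B)) := by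
  have h1 : (Y ∩ un F' (insert Z {B})).card = 2 := by
    rw [inter_un_insert hd]
    exact inter_un_single h
  rw [w_insert h1, w_pair h']
  ring

theorem w_quad {F' Y Z W B : Finset P} (h : (Y ∩ B ∩ F').card = 2) (h' : (Z ∩ B ∩ F').card = 2)
    (h'' : (W ∩ B ∩ F').card = 2) (hd : Y ∩ Z = ∅) (hd' : Y ∩ W = ∅) (hd'' : Z ∩ W = ∅) :
    w F' {Y, Z, W, B} = 64 * (v F' Y * (v F' Z * v F' W) * v F' B) := by
  have h1 : (Y ∩ un F' (insert Z (insert W {B}))).card = 2 := by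
    rw [inter_un_insert hd, inter_un_insert hd']
    exact inter_un_single h
  rw [w_insert h1, w_triple h' h'' hd'']
  ring

theorem kind2 {F : Finset P} {m : P} {𝓛 : Finset (Finset P)} (hm : m ∈ F) {B Y : Finset P}
    (hB : B ∈ 𝓛) (hmB : m ∈ B) (hY : Y ∈ DD F m 𝓛 B) : {Y, B} ∈ KF F 𝓛 m 2 := by
  rw [mem_DD] at hY
  obtain ⟨hY, hne, hmY, hc⟩ := hY
  unfold KF
  rw [mem_filter, mem_powerset]
  refine ⟨?_, Or.inl ⟨by norm_num, by norm_num, card_pair hne, ⟨⟨Y, by simp⟩, ?_⟩, ?_⟩⟩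
  · intro x hx
    rw [mem_insert, mem_singleton] at hx
    rcases hx with rfl | rfl
    · exact hY
    · exact hB
  · have hn : (Y ∩ B ∩ F).Nonempty := by
      have h1 : (Y ∩ B ∩ F.erase m).Nonempty := card_pos.1 (by omega)
      obtain ⟨x, hx⟩ := h1
      rw [mem_inter] at hx
      exact ⟨x, mem_inter.2 ⟨hx.1, mem_of_mem_erase hx.2⟩⟩
    intro S hS hSn hSc
    obtain ⟨a, ha⟩ := hSn
    obtain ⟨b, hb⟩ := hSc
    have ha' := hS ha
    rw [mem_sdiff] at hb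
    have hb' := hb.1
    have hab : a ≠ b := fun h => hb.2 (h ▸ ha)
    refine ⟨a, ha, b, mem_sdiff.2 hb, ?_⟩
    rw [mem_insert, mem_singleton] at ha' hb'
    rcases ha' with rfl | rfl <;> rcases hb' with rfl | rfl
    · exact absurd rfl hab
    · exact hn
    · rw [inter_comm a b]
      exact hn
    · exact absurd rfl hab
  · rw [mem_un]
    exact ⟨⟨B, by simp, hmB⟩, hm⟩

theorem kind5 {F : Finset P} {m : P} {𝓛 : Finset (Finset P)} {Y : Finset P} (hY : Y ∈ 𝓛)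
    (hmY : m ∉ Y) : {Y} ∈ KF F 𝓛 m 5 := by
  unfold KF
  rw [mem_filter, mem_powerset]
  refine ⟨singleton_subset_iff.2 hY, Or.inr (Or.inl ⟨le_rfl, by norm_num, card_singleton _,
    ⟨⟨Y, by simp⟩, ?_⟩, ?_⟩)⟩
  · intro S hS hSn hSc
    obtain ⟨a, ha⟩ := hSn
    obtain ⟨b, hb⟩ := hSc
    have ha' := mem_singleton.1 (hS ha)
    rw [mem_sdiff] at hb
    have hb' := mem_singleton.1 hb.1
    exact absurd (by rw [hb', ← ha']; exact ha) hb.2
  · rw [un_singleton]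
    exact fun h => hmY (mem_inter.1 h).1

theorem kind9 {F : Finset P} {m : P} {𝓛 : Finset (Finset P)} : ∅ ∈ KF F 𝓛 m 9 := by
  unfold KF
  rw [mem_filter, mem_powerset]
  exact ⟨empty_subset _, Or.inr (Or.inr ⟨rfl, rfl⟩)⟩

theorem w3_nonneg (F : Finset P) (m : P)
    (t : Finset (Finset P) × Finset (Finset P) × Finset (Finset P)) : 0 ≤ w3 F m t :=
  mul_nonneg (w_nonneg _ _) (mul_nonneg (w_nonneg _ _) (w_nonneg _ _))

theorem pair_inj {F : Finset P} {m : P} {𝓛 : Finset (Finset P)} {B B' Y Y' : Finset P}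
    (hmB : m ∈ B) (hmB' : m ∈ B') (hY : Y ∈ DD F m 𝓛 B) (hY' : Y' ∈ DD F m 𝓛 B')
    (h : ({Y, B} : Finset (Finset P)) = {Y', B'}) : B = B' ∧ Y = Y' := by
  rw [mem_DD] at hY hY'
  have h1 : B ∈ ({Y', B'} : Finset (Finset P)) := by rw [← h]; simp
  have h2 : Y ∈ ({Y', B'} : Finset (Finset P)) := by rw [← h]; simp
  rw [mem_insert, mem_singleton] at h1 h2
  have hB : B = B' := by
    rcases h1 with h1 | h1
    · exact absurd (h1 ▸ hmB) hY'.2.2.1
    · exact h1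
  refine ⟨hB, ?_⟩
  rcases h2 with h2 | h2
  · exact h2
  · exact absurd (h2.trans hB.symm) hY.2.1

theorem sort3 {ι : Type*} [DecidableEq ι] (i : ι → Fin 4) {x y z : ι} (h1 : i x ≠ i y)
    (h2 : i x ≠ i z) (h3 : i y ≠ i z) : ∃ a b c, i a < i b ∧ i b < i c ∧
      ({a, b, c} : Finset ι) = {x, y, z} := by
  rcases lt_or_gt_of_ne h1 with g1 | g1 <;> rcases lt_or_gt_of_ne h2 with g2 | g2 <;>
    rcases lt_or_gt_of_ne h3 with g3 | g3
  · exact ⟨x, y, z, g1, g3, rfl⟩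
  · exact ⟨x, z, y, g2, g3, by ext t; simp only [mem_insert, mem_singleton]; tauto⟩
  · exact absurd (g1.trans g3) (not_lt.2 g2.le)
  · exact ⟨z, x, y, g2, g1, by ext t; simp only [mem_insert, mem_singleton]; tauto⟩
  · exact ⟨y, x, z, g1, g2, by ext t; simp only [mem_insert, mem_singleton]; tauto⟩
  · exact absurd (g3.trans g1) (not_lt.2 g2.le)
  · exact ⟨y, z, x, g3, g2, by ext t; simp only [mem_insert, mem_singleton]; tauto⟩
  · exact ⟨z, y, x, g3, g1, by ext t; simp only [mem_insert, mem_singleton]; tauto⟩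

/-- The classes of the lines double-crossing `B`. -/
theorem exists_i {𝒢 𝓛 : Finset (Finset P)} (hG : Geom 𝒢) (hL : 𝓛 ⊆ 𝒢) (F : Finset P) (m : P) :
    ∃ i : Finset P → Finset P → Fin 4, ∀ B ∈ 𝓛, m ∈ B → ∀ Y ∈ DD F m 𝓛 B, ∀ Z ∈ DD F m 𝓛 B,
      i B Y = i B Z → Y ∩ B ∩ F.erase m = Z ∩ B ∩ F.erase m := by
  have h : ∀ B : Finset P, ∃ i : Finset P → Fin 4, B ∈ 𝓛 → m ∈ B → ∀ Y ∈ DD F m 𝓛 B,
      ∀ Z ∈ DD F m 𝓛 B, i Y = i Z → Y ∩ B ∩ F.erase m = Z ∩ B ∩ F.erase m := by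
    intro B
    by_cases hB : B ∈ 𝓛 ∧ m ∈ B
    · obtain ⟨i, hi⟩ := hG.pairs B (hL hB.1) m hB.2
      refine ⟨i, fun _ _ Y hY Z hZ hYZ => ?_⟩
      rw [mem_DD] at hY hZ
      have h1 := card_two hG (hL hY.1) (hL hB.1) hY.2.1 hY.2.2.2
      have h2 := card_two hG (hL hZ.1) (hL hB.1) hZ.2.1 hZ.2.2.2
      rw [h1.2, h2.2]
      exact hi Y (hL hY.1) Z (hL hZ.1) hY.2.1 hZ.2.1 h1.1 h2.1 hY.2.2.1 hZ.2.2.1 hYZ
    · exact ⟨fun _ => 0, fun h1 h2 => absurd ⟨h1, h2⟩ hB⟩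
  choose i hi using h
  exact ⟨i, fun B hB hm => hi B hB hm⟩

theorem union_eq4 (B a b c : Finset P) :
    ({a, B} : Finset (Finset P)) ∪ ({b} ∪ {c}) = {a, b, c, B} := by
  ext t
  simp only [mem_union, mem_insert, mem_singleton]
  tauto

theorem SP_of {F : Finset P} {m : P} {𝓛 : Finset (Finset P)} {B : Finset P}
    {T : Finset (Finset P)} (hmB : m ∈ B) (hB : B ∈ T)
    (h : ∀ Y ∈ T, Y ≠ B → Y ∈ DD F m 𝓛 B) : SP F m T :=
  ⟨B, hB, hmB, fun Y hY hne => ⟨(mem_DD.1 (h Y hY hne)).2.2.1, (mem_DD.1 (h Y hY hne)).2.2.2⟩⟩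

theorem cap_inj {𝒢 𝓛 : Finset (Finset P)} (hG : Geom 𝒢) (hL : 𝓛 ⊆ 𝒢) {F : Finset P} {m : P}
    {T T' : Finset (Finset P)} {B B' : Finset P} (hT : T ⊆ 𝓛) (hT4 : T.card = 4)
    (hT' : T' ⊆ 𝓛) (_hT4' : T'.card = 4)
    (h : B ∈ T ∧ m ∈ B ∧ (∀ Y ∈ T, Y ≠ B → m ∉ Y) ∧ Conn F (T.erase B) ∧
      ∃ Y ∈ T, ∃ Z ∈ T, Y ≠ B ∧ Z ≠ B ∧ Y ≠ Z ∧
        (Y ∩ B ∩ F.erase m).card = 2 ∧ (Z ∩ B ∩ F.erase m).card = 2)
    (h' : B' ∈ T' ∧ m ∈ B' ∧ (∀ Y ∈ T', Y ≠ B' → m ∉ Y) ∧ Conn F (T'.erase B') ∧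
      ∃ Y ∈ T', ∃ Z ∈ T', Y ≠ B' ∧ Z ≠ B' ∧ Y ≠ Z ∧
        (Y ∩ B' ∩ F.erase m).card = 2 ∧ (Z ∩ B' ∩ F.erase m).card = 2)
    (heq : T.erase B = T'.erase B') : T = T' := by
  obtain ⟨hB, hmB, hoff, -, Y, hY, Z, hZ, hYB, hZB, hYZ, hY2, hZ2⟩ := h
  obtain ⟨hB', hmB', hoff', -, Y', hY', Z', hZ', hYB', hZB', hYZ', hY2', hZ2'⟩ := h'
  by_cases hBB : B = B'
  · rw [← insert_erase hB, heq, hBB, insert_erase hB']
  exfalso
  -- a common double crosser
  have hcommon : ∃ W ∈ T.erase B, W ∈ T'.erase B' ∧ (W ∩ B ∩ F.erase m).card = 2 ∧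
      (W ∩ B' ∩ F.erase m).card = 2 := by
    have c3 : (T.erase B).card = 3 := by rw [card_erase_of_mem hB, hT4]
    have d1 : ({Y, Z} : Finset (Finset P)) ⊆ T.erase B := by
      intro t ht
      rw [mem_insert, mem_singleton] at ht
      rcases ht with rfl | rfl
      · exact mem_erase.2 ⟨hYB, hY⟩
      · exact mem_erase.2 ⟨hZB, hZ⟩
    have d2 : ({Y', Z'} : Finset (Finset P)) ⊆ T.erase B := by
      intro t ht
      rw [mem_insert, mem_singleton] at ht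
      rw [heq]
      rcases ht with rfl | rfl
      · exact mem_erase.2 ⟨hYB', hY'⟩
      · exact mem_erase.2 ⟨hZB', hZ'⟩
    have d3 : (({Y, Z} : Finset (Finset P)) ∩ {Y', Z'}).Nonempty := by
      rw [← card_pos]
      have h1 := card_union_add_card_inter ({Y, Z} : Finset (Finset P)) {Y', Z'}
      have h2 := card_le_card (union_subset d1 d2)
      rw [card_pair hYZ, card_pair hYZ'] at h1
      omega
    obtain ⟨W, hW⟩ := d3
    rw [mem_inter] at hW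
    have hWT := d1 hW.1
    refine ⟨W, hWT, by rw [← heq]; exact hWT, ?_, ?_⟩
    · have := hW.1
      rw [mem_insert, mem_singleton] at this
      rcases this with h | h
      · rw [h]; exact hY2
      · rw [h]; exact hZ2
    · have := hW.2
      rw [mem_insert, mem_singleton] at this
      rcases this with h | h
      · rw [h]; exact hY2'
      · rw [h]; exact hZ2'
  obtain ⟨W, hW, hW', c1, c2⟩ := hcommon
  rw [mem_erase] at hW hW'
  have hWG := hL (hT hW.2)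
  have hBG := hL (hT hB)
  have hBG' := hL (hT' hB')
  have e1 := (card_two hG hWG hBG hW.1 c1).1
  have e2 := (card_two hG hWG hBG' hW'.1 c2).1
  have e3 := hG.trans B hBG W hWG B' hBG' (Ne.symm hW.1) hW'.1 hBB
    (by rw [inter_comm]; exact e1) e2 ⟨m, mem_inter.2 ⟨hmB, hmB'⟩⟩
  have e4 : m ∈ B ∩ B' := mem_inter.2 ⟨hmB, hmB'⟩
  rw [e3.2, mem_inter] at e4
  exact hoff W hW.2 hW.1 e4.1

end CapRow

open CapRow

variable {P : Type*} [DecidableEq P]

theorem vrow4 {𝒢 𝓛 : Finset (Finset P)} (hG : Geom 𝒢) (hL : 𝓛 ⊆ 𝒢) (F : Finset P) (m : P)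
    (hm : m ∈ F) :
    ∑ T ∈ (𝓛.powersetCard 4).filter (fun T => SP F m T ∧ DP F m T), w (F.erase m) T ≤
      ∑ t ∈ (K3 F 𝓛 m 2 5 5).filter (fun t => SP F m (t.1 ∪ (t.2.1 ∪ t.2.2))), w3 F m t := by
  classical
  obtain ⟨i, hi⟩ := exists_i hG hL F m
  obtain ⟨Q, hQ⟩ : ∃ Q : Finset P → Finset (Finset P × Finset P × Finset P), Q = fun B =>
    (DD F m 𝓛 B ×ˢ (DD F m 𝓛 B ×ˢ DD F m 𝓛 B)).filter
      (fun q => i B q.1 < i B q.2.1 ∧ i B q.2.1 < i B q.2.2) := ⟨_, rfl⟩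
  have hQm : ∀ B q, q ∈ Q B ↔ (q.1 ∈ DD F m 𝓛 B ∧ q.2.1 ∈ DD F m 𝓛 B ∧ q.2.2 ∈ DD F m 𝓛 B) ∧
      i B q.1 < i B q.2.1 ∧ i B q.2.1 < i B q.2.2 := by
    intro B q
    rw [hQ, mem_filter, mem_product, mem_product]
  have s1 : ∑ T ∈ (𝓛.powersetCard 4).filter (fun T => SP F m T ∧ DP F m T), w (F.erase m) T ≤
      ∑ s ∈ (𝓛.filter fun B => m ∈ B).sigma fun B => (Q B).filter fun q =>
        DP F m {q.1, q.2.1, q.2.2, B}, w (F.erase m) {s.2.1, s.2.2.1, s.2.2.2, s.1} := by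
    refine sum_le_of_surj (fun T => w_nonneg _ T)
      (fun s : (Σ _ : Finset P, Finset P × Finset P × Finset P) =>
        ({s.2.1, s.2.2.1, s.2.2.2, s.1} : Finset (Finset P))) fun T hT => ?_
    rw [mem_filter, mem_powersetCard] at hT
    obtain ⟨⟨hTL, hT4⟩, ⟨B, hB, hmB, hSP⟩, hDP⟩ := hT
    have hD : ∀ Y ∈ T, Y ≠ B → Y ∈ DD F m 𝓛 B := fun Y hY hne =>
      mem_DD.2 ⟨hTL hY, hne, hSP Y hY hne⟩
    have h3 : (T.erase B).card = 3 := by rw [card_erase_of_mem hB, hT4]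
    obtain ⟨x, y, z, hxy, hxz, hyz, hT3⟩ := card_eq_three.1 h3
    have hx : x ∈ T.erase B := by rw [hT3]; simp
    have hy : y ∈ T.erase B := by rw [hT3]; simp
    have hz : z ∈ T.erase B := by rw [hT3]; simp
    rw [mem_erase] at hx hy hz
    have hne : ∀ Y ∈ T, Y ≠ B → ∀ Z ∈ T, Z ≠ B → Y ≠ Z → i B Y ≠ i B Z := by
      intro Y hY hYB Z hZ hZB hYZ hcon
      exact hDP B hB hmB Y hY Z hZ hYB hZB hYZ
        (hi B (hTL hB) hmB Y (hD Y hY hYB) Z (hD Z hZ hZB) hcon)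
    obtain ⟨a, b, c, hab, hbc, habc⟩ := sort3 (i B) (hne x hx.2 hx.1 y hy.2 hy.1 hxy)
      (hne x hx.2 hx.1 z hz.2 hz.1 hxz) (hne y hy.2 hy.1 z hz.2 hz.1 hyz)
    have hTe : T.erase B = {a, b, c} := hT3.trans habc.symm
    have ha : a ∈ T.erase B := by rw [hTe]; simp
    have hb : b ∈ T.erase B := by rw [hTe]; simp
    have hc : c ∈ T.erase B := by rw [hTe]; simp
    rw [mem_erase] at ha hb hc
    have hTeq : ({a, b, c, B} : Finset (Finset P)) = T := by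
      rw [← insert_erase hB, hTe]
      ext t
      simp only [mem_insert, mem_singleton]
      tauto
    refine ⟨⟨B, (a, b, c)⟩, ?_, hTeq⟩
    rw [mem_sigma, mem_filter, mem_filter, hQm]
    refine ⟨⟨hTL hB, hmB⟩, ⟨⟨hD a ha.2 ha.1, hD b hb.2 hb.1, hD c hc.2 hc.1⟩, hab, hbc⟩, ?_⟩
    simp only
    rw [hTeq]
    exact hDP
  refine s1.trans ?_
  rw [sum_sigma]
  have s2 : ∀ B ∈ 𝓛.filter fun B => m ∈ B, ∑ q ∈ (Q B).filter fun q =>
      DP F m {q.1, q.2.1, q.2.2, B}, w (F.erase m) {q.1, q.2.1, q.2.2, B} ≤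
      ∑ q ∈ DD F m 𝓛 B ×ˢ (DD F m 𝓛 B ×ˢ DD F m 𝓛 B), w3 F m ({q.1, B}, {q.2.1}, {q.2.2}) := by
    intro B hB
    rw [mem_filter] at hB
    have t1 : ∑ q ∈ (Q B).filter (fun q => DP F m {q.1, q.2.1, q.2.2, B}),
        w (F.erase m) {q.1, q.2.1, q.2.2, B} ≤
        ∑ q ∈ Q B, 64 * v (F.erase m) B * (v (F.erase m) q.1 *
          (v (F.erase m) q.2.1 * v (F.erase m) q.2.2)) := by
      refine le_trans (sum_le_sum (g := fun q => 64 * v (F.erase m) B * (v (F.erase m) q.1 *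
          (v (F.erase m) q.2.1 * v (F.erase m) q.2.2))) fun q hq => ?_)
        (sum_le_sum_of_subset_of_nonneg (filter_subset _ _) fun q _ _ => ?_)
      · rw [mem_filter, hQm] at hq
        obtain ⟨⟨⟨ha, hb, hc⟩, hab, hbc⟩, hDP⟩ := hq
        have ha' := mem_DD.1 ha
        have hb' := mem_DD.1 hb
        have hc' := mem_DD.1 hc
        have nab : q.1 ≠ q.2.1 := fun h => by rw [h] at hab; exact lt_irrefl _ hab
        have nbc : q.2.1 ≠ q.2.2 := fun h => by rw [h] at hbc; exact lt_irrefl _ hbc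
        have nac : q.1 ≠ q.2.2 := fun h => by
          rw [h] at hab
          exact lt_irrefl _ (hab.trans hbc)
        have hBL := hL hB.1
        have dd : ∀ Y ∈ ({q.1, q.2.1, q.2.2, B} : Finset (Finset P)),
            ∀ Z ∈ ({q.1, q.2.1, q.2.2, B} : Finset (Finset P)), Y ∈ DD F m 𝓛 B →
            Z ∈ DD F m 𝓛 B → Y ≠ Z → Y ∩ Z = ∅ := by
          intro Y hY Z hZ hY' hZ' hne
          have g1 := mem_DD.1 hY'
          have g2 := mem_DD.1 hZ'
          exact disj hG (hL g1.1) (hL g2.1) hBL g1.2.1 g2.2.1 hne g1.2.2.2 g2.2.2.2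
            (hDP B (by simp) hB.2 Y hY Z hZ g1.2.1 g2.2.1 hne)
        rw [w_quad ha'.2.2.2 hb'.2.2.2 hc'.2.2.2
          (dd _ (by simp) _ (by simp) ha hb nab) (dd _ (by simp) _ (by simp) ha hc nac)
          (dd _ (by simp) _ (by simp) hb hc nbc)]
        exact le_of_eq (by ring)
      · have := v_nonneg (F.erase m) B
        have := v_nonneg (F.erase m) q.1
        have := v_nonneg (F.erase m) q.2.1
        have := v_nonneg (F.erase m) q.2.2
        positivity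
    refine t1.trans ?_
    rw [← mul_sum, hQ]
    have t2 := triples_le (DD F m 𝓛 B) (i B) (fun Y => v (F.erase m) Y)
      (fun Y => v_nonneg _ Y)
    have t3 : ∑ q ∈ DD F m 𝓛 B ×ˢ (DD F m 𝓛 B ×ˢ DD F m 𝓛 B),
        w3 F m ({q.1, B}, {q.2.1}, {q.2.2}) =
        4 * v (F.erase m) B * ((∑ a ∈ DD F m 𝓛 B, v (F.erase m) a) *
          ((∑ a ∈ DD F m 𝓛 B, v (F.erase m) a) * ∑ a ∈ DD F m 𝓛 B, v (F.erase m) a)) := by
      rw [sum_mul_sum (DD F m 𝓛 B) (DD F m 𝓛 B), ← sum_product', sum_mul_sum, ← sum_product',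
        mul_sum]
      refine sum_congr rfl fun q hq => ?_
      rw [mem_product, mem_product] at hq
      unfold w3
      simp only
      rw [w_pair (mem_DD.1 hq.1).2.2.2, w_singleton, w_singleton]
      ring
    rw [t3]
    have hv := v_nonneg (F.erase m) B
    have t4 := mul_le_mul_of_nonneg_left t2 (show 0 ≤ 4 * v (F.erase m) B by positivity)
    refine le_trans (le_of_eq ?_) t4
    ring
  refine (sum_le_sum s2).trans ?_
  rw [sum_sigma' (𝓛.filter fun B => m ∈ B)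
    (fun B => DD F m 𝓛 B ×ˢ (DD F m 𝓛 B ×ˢ DD F m 𝓛 B))
    (fun B q => w3 F m ({q.1, B}, {q.2.1}, {q.2.2}))]
  refine sum_le_of_inj (fun t => w3_nonneg F m t)
    (fun s : (Σ _ : Finset P, Finset P × Finset P × Finset P) =>
      (({s.2.1, s.1}, {s.2.2.1}, {s.2.2.2}) :
        Finset (Finset P) × Finset (Finset P) × Finset (Finset P))) ?_ ?_
  · rintro ⟨B, a, b, c⟩ hs
    rw [mem_sigma, mem_filter, mem_product, mem_product] at hs
    obtain ⟨⟨hB, hmB⟩, ha, hb, hc⟩ := hs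
    simp only at hB hmB ha hb hc
    rw [mem_filter]
    unfold K3
    rw [mem_product, mem_product]
    refine ⟨⟨kind2 hm hB hmB ha, kind5 (mem_DD.1 hb).1 (mem_DD.1 hb).2.2.1,
      kind5 (mem_DD.1 hc).1 (mem_DD.1 hc).2.2.1⟩, ?_⟩
    simp only
    rw [union_eq4]
    refine SP_of (𝓛 := 𝓛) hmB (by simp) fun Y hY hne => ?_
    simp only [mem_insert, mem_singleton] at hY
    rcases hY with rfl | rfl | rfl | rfl
    · exact ha
    · exact hb
    · exact hc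
    · exact absurd rfl hne
  · rintro ⟨B, a, b, c⟩ hs ⟨B', a', b', c'⟩ hs' heq
    rw [mem_sigma, mem_filter, mem_product, mem_product] at hs hs'
    simp only at hs hs' heq
    have h1 := (Prod.mk.inj heq).1
    have h2 := (Prod.mk.inj (Prod.mk.inj heq).2).1
    have h3 := (Prod.mk.inj (Prod.mk.inj heq).2).2
    obtain ⟨rfl, rfl⟩ := pair_inj hs.1.2 hs'.1.2 hs.2.1 hs'.2.1 h1
    rw [singleton_inj] at h2 h3
    subst h2 h3
    rfl

theorem vrow3 {𝒢 𝓛 : Finset (Finset P)} (hG : Geom 𝒢) (hL : 𝓛 ⊆ 𝒢) (F : Finset P) (m : P)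
    (hm : m ∈ F) :
    2 / 3 * ∑ T ∈ (𝓛.powersetCard 3).filter (fun T => SP F m T ∧ DP F m T), w (F.erase m) T ≤
      ∑ t ∈ (K3 F 𝓛 m 2 5 9).filter (fun t => SP F m (t.1 ∪ (t.2.1 ∪ t.2.2))), w3 F m t := by
  classical
  obtain ⟨i, hi⟩ := exists_i hG hL F m
  obtain ⟨Q, hQ⟩ : ∃ Q : Finset P → Finset (Finset P × Finset P), Q = fun B =>
    (DD F m 𝓛 B ×ˢ DD F m 𝓛 B).filter (fun q => i B q.1 < i B q.2) := ⟨_, rfl⟩
  have hQm : ∀ B q, q ∈ Q B ↔ (q.1 ∈ DD F m 𝓛 B ∧ q.2 ∈ DD F m 𝓛 B) ∧ i B q.1 < i B q.2 := by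
    intro B q
    rw [hQ, mem_filter, mem_product]
  have s1 : ∑ T ∈ (𝓛.powersetCard 3).filter (fun T => SP F m T ∧ DP F m T), w (F.erase m) T ≤
      ∑ s ∈ (𝓛.filter fun B => m ∈ B).sigma fun B => (Q B).filter fun q =>
        DP F m {q.1, q.2, B}, w (F.erase m) {s.2.1, s.2.2, s.1} := by
    refine sum_le_of_surj (fun T => w_nonneg _ T)
      (fun s : (Σ _ : Finset P, Finset P × Finset P) =>
        ({s.2.1, s.2.2, s.1} : Finset (Finset P))) fun T hT => ?_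
    rw [mem_filter, mem_powersetCard] at hT
    obtain ⟨⟨hTL, hT4⟩, ⟨B, hB, hmB, hSP⟩, hDP⟩ := hT
    have hD : ∀ Y ∈ T, Y ≠ B → Y ∈ DD F m 𝓛 B := fun Y hY hne =>
      mem_DD.2 ⟨hTL hY, hne, hSP Y hY hne⟩
    have h3 : (T.erase B).card = 2 := by rw [card_erase_of_mem hB, hT4]
    obtain ⟨x, y, hxy, hT3⟩ := card_eq_two.1 h3
    have hx : x ∈ T.erase B := by rw [hT3]; simp
    have hy : y ∈ T.erase B := by rw [hT3]; simp
    rw [mem_erase] at hx hy
    have hne : i B x ≠ i B y := fun hcon =>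
      hDP B hB hmB x hx.2 y hy.2 hx.1 hy.1 hxy
        (hi B (hTL hB) hmB x (hD x hx.2 hx.1) y (hD y hy.2 hy.1) hcon)
    rcases lt_or_gt_of_ne hne with hlt | hlt
    · refine ⟨⟨B, (x, y)⟩, ?_, ?_⟩
      · rw [mem_sigma, mem_filter, mem_filter, hQm]
        refine ⟨⟨hTL hB, hmB⟩, ⟨⟨hD x hx.2 hx.1, hD y hy.2 hy.1⟩, hlt⟩, ?_⟩
        have hTeq : ({x, y, B} : Finset (Finset P)) = T := by
          rw [← insert_erase hB, hT3]
          ext t
          simp only [mem_insert, mem_singleton]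
          tauto
        simp only
        rw [hTeq]
        exact hDP
      · simp only
        rw [← insert_erase hB, hT3]
        ext t
        simp only [mem_insert, mem_singleton]
        tauto
    · refine ⟨⟨B, (y, x)⟩, ?_, ?_⟩
      · rw [mem_sigma, mem_filter, mem_filter, hQm]
        refine ⟨⟨hTL hB, hmB⟩, ⟨⟨hD y hy.2 hy.1, hD x hx.2 hx.1⟩, hlt⟩, ?_⟩
        have hTeq : ({y, x, B} : Finset (Finset P)) = T := by
          rw [← insert_erase hB, hT3]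
          ext t
          simp only [mem_insert, mem_singleton]
          tauto
        simp only
        rw [hTeq]
        exact hDP
      · simp only
        rw [← insert_erase hB, hT3]
        ext t
        simp only [mem_insert, mem_singleton]
        tauto
  refine (mul_le_mul_of_nonneg_left s1 (by norm_num)).trans ?_
  rw [sum_sigma, mul_sum]
  have s2 : ∀ B ∈ 𝓛.filter fun B => m ∈ B, 2 / 3 * ∑ q ∈ (Q B).filter fun q =>
      DP F m {q.1, q.2, B}, w (F.erase m) {q.1, q.2, B} ≤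
      ∑ q ∈ DD F m 𝓛 B ×ˢ DD F m 𝓛 B, w3 F m ({q.1, B}, {q.2}, ∅) := by
    intro B hB
    rw [mem_filter] at hB
    have t1 : ∑ q ∈ (Q B).filter (fun q => DP F m {q.1, q.2, B}),
        w (F.erase m) {q.1, q.2, B} ≤
        ∑ q ∈ Q B, 16 * v (F.erase m) B * (v (F.erase m) q.1 * v (F.erase m) q.2) := by
      refine le_trans (sum_le_sum (g := fun q => 16 * v (F.erase m) B * (v (F.erase m) q.1 *
          v (F.erase m) q.2)) fun q hq => ?_)
        (sum_le_sum_of_subset_of_nonneg (filter_subset _ _) fun q _ _ => ?_)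
      · rw [mem_filter, hQm] at hq
        obtain ⟨⟨⟨ha, hb⟩, hab⟩, hDP⟩ := hq
        have ha' := mem_DD.1 ha
        have hb' := mem_DD.1 hb
        have nab : q.1 ≠ q.2 := fun h => by rw [h] at hab; exact lt_irrefl _ hab
        have hBL := hL hB.1
        have hd := disj hG (hL ha'.1) (hL hb'.1) hBL ha'.2.1 hb'.2.1 nab ha'.2.2.2 hb'.2.2.2
          (hDP B (by simp) hB.2 _ (by simp) _ (by simp) ha'.2.1 hb'.2.1 nab)
        rw [w_triple ha'.2.2.2 hb'.2.2.2 hd]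
        exact le_of_eq (by ring)
      · have := v_nonneg (F.erase m) B
        have := v_nonneg (F.erase m) q.1
        have := v_nonneg (F.erase m) q.2
        positivity
    refine (mul_le_mul_of_nonneg_left t1 (by norm_num)).trans ?_
    rw [← mul_sum, hQ]
    have t2 := pairs_le (DD F m 𝓛 B) (i B) (fun Y => v (F.erase m) Y)
    have t3 : ∑ q ∈ DD F m 𝓛 B ×ˢ DD F m 𝓛 B, w3 F m ({q.1, B}, {q.2}, ∅) =
        4 * v (F.erase m) B * ((∑ a ∈ DD F m 𝓛 B, v (F.erase m) a) *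
          ∑ a ∈ DD F m 𝓛 B, v (F.erase m) a) := by
      rw [sum_mul_sum, ← sum_product', mul_sum]
      refine sum_congr rfl fun q hq => ?_
      rw [mem_product] at hq
      unfold w3
      simp only
      rw [w_pair (mem_DD.1 hq.1).2.2.2, w_singleton, w_empty]
      ring
    rw [t3]
    have hv := v_nonneg (F.erase m) B
    have t4 := mul_le_mul_of_nonneg_left t2 (show 0 ≤ 4 / 3 * v (F.erase m) B by positivity)
    refine le_trans (le_of_eq ?_) (t4.trans (le_of_eq ?_))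
    · ring
    · ring
  refine (sum_le_sum s2).trans ?_
  rw [sum_sigma' (𝓛.filter fun B => m ∈ B)
    (fun B => DD F m 𝓛 B ×ˢ DD F m 𝓛 B)
    (fun B q => w3 F m ({q.1, B}, {q.2}, ∅))]
  refine sum_le_of_inj (fun t => w3_nonneg F m t)
    (fun s : (Σ _ : Finset P, Finset P × Finset P) =>
      (({s.2.1, s.1}, {s.2.2}, ∅) :
        Finset (Finset P) × Finset (Finset P) × Finset (Finset P))) ?_ ?_
  · rintro ⟨B, a, b⟩ hs
    rw [mem_sigma, mem_filter, mem_product] at hs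
    obtain ⟨⟨hB, hmB⟩, ha, hb⟩ := hs
    simp only at hB hmB ha hb
    rw [mem_filter]
    unfold K3
    rw [mem_product, mem_product]
    refine ⟨⟨kind2 hm hB hmB ha, kind5 (mem_DD.1 hb).1 (mem_DD.1 hb).2.2.1, kind9⟩, ?_⟩
    simp only
    refine SP_of (𝓛 := 𝓛) hmB (by simp) fun Y hY hne => ?_
    simp only [mem_union, mem_insert, mem_singleton, notMem_empty, or_false] at hY
    rcases hY with (rfl | rfl) | rfl
    · exact ha
    · exact absurd rfl hne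
    · exact hb
  · rintro ⟨B, a, b⟩ hs ⟨B', a', b'⟩ hs' heq
    rw [mem_sigma, mem_filter, mem_product] at hs hs'
    simp only at hs hs' heq
    have h1 := (Prod.mk.inj heq).1
    have h2 := (Prod.mk.inj (Prod.mk.inj heq).2).1
    obtain ⟨rfl, rfl⟩ := pair_inj hs.1.2 hs'.1.2 hs.2.1 hs'.2.1 h1
    rw [singleton_inj] at h2
    subst h2
    rfl

theorem cap_row {𝒢 𝓛 : Finset (Finset P)} (hG : Geom 𝒢) (hL : 𝓛 ⊆ 𝒢) (F : Finset P) (m : P)
    (hm : m ∈ F) :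
    ∑ T ∈ (𝓛.powersetCard 4).filter (CP F m), w (F.erase m) T ≤ Om F 𝓛 m 3 := by
  classical
  obtain ⟨g, hg⟩ : ∃ g : Finset (Finset P) → Finset P, ∀ T, CP F m T → g T ∈ T ∧ m ∈ g T ∧
      (∀ Y ∈ T, Y ≠ g T → m ∉ Y) ∧ Conn F (T.erase (g T)) ∧
      ∃ Y ∈ T, ∃ Z ∈ T, Y ≠ g T ∧ Z ≠ g T ∧ Y ≠ Z ∧
        (Y ∩ g T ∩ F.erase m).card = 2 ∧ (Z ∩ g T ∩ F.erase m).card = 2 := by
    have h : ∀ T, ∃ B : Finset P, CP F m T → B ∈ T ∧ m ∈ B ∧
      (∀ Y ∈ T, Y ≠ B → m ∉ Y) ∧ Conn F (T.erase B) ∧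
      ∃ Y ∈ T, ∃ Z ∈ T, Y ≠ B ∧ Z ≠ B ∧ Y ≠ Z ∧
        (Y ∩ B ∩ F.erase m).card = 2 ∧ (Z ∩ B ∩ F.erase m).card = 2 := by
      intro T
      by_cases hT : CP F m T
      · obtain ⟨B, h1, h2⟩ := hT
        exact ⟨B, fun _ => ⟨h1, h2⟩⟩
      · exact ⟨∅, fun h => absurd h hT⟩
    choose g hg using h
    exact ⟨g, hg⟩
  have hmun : ∀ T, CP F m T → m ∉ un F (T.erase (g T)) := by
    intro T hT hcon
    obtain ⟨⟨Y, hY, hmY⟩, _⟩ := mem_un.1 hcon
    rw [mem_erase] at hY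
    exact (hg T hT).2.2.1 Y hY.2 hY.1 hmY
  have s1 : ∑ T ∈ (𝓛.powersetCard 4).filter (CP F m), w (F.erase m) T ≤
      ∑ T ∈ (𝓛.powersetCard 4).filter (CP F m), w F (T.erase (g T)) := by
    refine sum_le_sum fun T hT => ?_
    rw [mem_filter] at hT
    unfold w
    refine pow_le_pow_of_le_one (by norm_num) (by norm_num) (card_le_card fun x hx => ?_)
    have hxm : x ≠ m := fun h => hmun T hT.2 (h ▸ hx)
    rw [mem_un] at hx ⊢
    obtain ⟨⟨Y, hY, hxY⟩, hxF⟩ := hx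
    exact ⟨⟨Y, mem_of_mem_erase hY, hxY⟩, mem_erase.2 ⟨hxm, hxF⟩⟩
  have h1 : ∀ T ∈ (𝓛.powersetCard 4).filter (CP F m), T.erase (g T) ∈
      (𝓛.powersetCard 3).filter (fun C => Conn F C ∧ m ∉ un F C) := by
    intro T hT
    rw [mem_filter, mem_powersetCard] at hT
    rw [mem_filter, mem_powersetCard]
    refine ⟨⟨(erase_subset _ _).trans hT.1.1, ?_⟩, (hg T hT.2).2.2.2.1, hmun T hT.2⟩
    rw [card_erase_of_mem (hg T hT.2).1, hT.1.2]
  have h2 : ∀ T ∈ (𝓛.powersetCard 4).filter (CP F m),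
      ∀ T' ∈ (𝓛.powersetCard 4).filter (CP F m), T.erase (g T) = T'.erase (g T') → T = T' := by
    intro T hT T' hT' heq
    rw [mem_filter, mem_powersetCard] at hT hT'
    exact cap_inj hG hL hT.1.1 hT.1.2 hT'.1.1 hT'.1.2 (hg T hT.2) (hg T' hT'.2) heq
  refine s1.trans ?_
  obtain ⟨A, hA⟩ : ∃ A, A = (𝓛.powersetCard 3).filter (fun C => Conn F C ∧ m ∉ un F C) :=
    ⟨_, rfl⟩
  obtain ⟨Q, hQ⟩ : ∃ Q, Q = (𝓛.powersetCard 4).filter (CP F m) := ⟨_, rfl⟩
  rw [← hA, ← hQ] at h1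
  rw [← hQ] at h2
  have h3 : Om F 𝓛 m 3 = ∑ C ∈ A, w F C := by
    unfold Om
    rw [hA]
  rw [h3, ← hQ]
  exact sum_le_of_inj (A := A) (Q := Q) (f := w F) (fun T => w_nonneg F T)
    (fun T => T.erase (g T)) h1 h2

end Torus103
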